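import Pool.Agent.Helper17.CT.Piece

set_option autoImplicit false

/-! FS-6: completeness of the enumeration of non-crossing pairings. -/

namespace Pool.Agent.Helper17.CT

namespace FS6

theorem d4_def (B j : ℕ) : d4 B j = (B >>> (4 * j)) % 2 ^ 4 := rfl

theorem sh_bit (B j i : ℕ) :
    (Nat.shiftLeft (d4 B j) (Nat.mul 4 j)).testBit i = (decide (i / 4 = j) && B.testBit i) := by
  have h0 : Nat.shiftLeft (d4 B j) (Nat.mul 4 j) = ((B >>> (4 * j)) % 2 ^ 4) <<< (4 * j) := rfl
  rw [h0, Nat.testBit_shiftLeft, Nat.testBit_mod_two_pow, Nat.testBit_shiftRight]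
  by_cases h : i / 4 = j
  · have h1 : 4 * j ≤ i := by omega
    have h2 : i - 4 * j < 4 := by omega
    have h3 : 4 * j + (i - 4 * j) = i := by omega
    simp [h, h1, h2, h3]
  · by_cases h1 : 4 * j ≤ i
    · have h2 : ¬ i - 4 * j < 4 := by omega
      simp [h, h2]
    · simp [h, h1]

theorem popc_eq (U k : ℕ) :
    popc U k = ((Finset.range k).filter fun i => tb U i = true).card := by
  induction k with
  | zero => rfl
  | succ k ih =>
    have h0 : popc U (k + 1) = cond (tb U k) (Nat.succ (popc U k)) (popc U k) := rfl
    rw [h0, ih, Finset.range_add_one, Finset.filter_insert]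
    cases h : tb U k
    · simp
    · simp

/-- the used ports from `p` on -/
def used (U k p : ℕ) : Finset ℕ := (Finset.range k).filter fun i => p ≤ i ∧ tb U i = true

theorem used_succ_of_false {U k p : ℕ} (h : tb U p = false) : used U k (p + 1) = used U k p := by
  ext i
  simp only [used, Finset.mem_filter, Finset.mem_range]
  constructor
  · rintro ⟨h1, h2, h3⟩
    exact ⟨h1, by omega, h3⟩
  · rintro ⟨h1, h2, h3⟩
    refine ⟨h1, ?_, h3⟩
    rcases Nat.lt_or_eq_of_le h2 with h4 | h4
    · exact h4
    · rw [h4] at h
      rw [h] at h3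
      exact absurd h3 (by simp)

theorem used_card_of_true {U k p : ℕ} (hp : p < k) (h : tb U p = true) :
    (used U k p).card = (used U k (p + 1)).card + 1 := by
  have h1 : used U k p = insert p (used U k (p + 1)) := by
    ext i
    simp only [used, Finset.mem_insert, Finset.mem_filter, Finset.mem_range]
    constructor
    · rintro ⟨h1, h2, h3⟩
      rcases Nat.lt_or_eq_of_le h2 with h4 | h4
      · exact Or.inr ⟨h1, h4, h3⟩
      · exact Or.inl h4.symm
    · rintro (rfl | ⟨h1, h2, h3⟩)
      · exact ⟨hp, le_rfl, h⟩
      · exact ⟨h1, by omega, h3⟩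
  rw [h1, Finset.card_insert_of_notMem]
  simp [used]

/-- the invariant -/
structure Inv (k U B : ℕ) (β : ℕ → ℕ) (p : ℕ) (st : List ℕ) (r B0 : ℕ) : Prop where
  le : p ≤ k
  dec : List.Pairwise (· > ·) st
  mem : ∀ q, q ∈ st ↔ q < p ∧ p ≤ β q
  r : r = (used U k p).card
  b : ∀ i, B0.testBit i = (decide (i / 4 < p ∧ β (i / 4) < p) && B.testBit i)

section
variable {k U B : ℕ} {β : ℕ → ℕ}

theorem inv_unused (hinv : ∀ p, β (β p) = p) (hd : ∀ j < k, d4 B j = β j)
    (hU : ∀ j < k, (tb U j = true ↔ β j ≠ j)) {p : ℕ} {st : List ℕ} {r B0 : ℕ} (hp : p < k)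
    (h : Inv k U B β p st r B0) (hu : tb U p = false) :
    Inv k U B β (p + 1) st r (Nat.lor B0 (Nat.shiftLeft p (Nat.mul 4 p))) := by
  have hβ : β p = p := by
    by_contra h1
    rw [(hU p hp).2 h1] at hu
    exact absurd hu (by simp)
  have hne : ∀ q, q ≠ p → β q ≠ p := by
    intro q hq h1
    apply hq
    rw [← hinv q, h1, hβ]
  refine ⟨hp, h.dec, ?_, ?_, ?_⟩
  · intro q
    rw [h.mem]
    constructor
    · rintro ⟨h1, h2⟩
      have := hne q (by omega)
      exact ⟨by omega, by omega⟩
    · rintro ⟨h1, h2⟩
      have h3 : q ≠ p := by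
        rintro rfl
        omega
      exact ⟨by omega, by omega⟩
  · rw [h.r, used_succ_of_false hu]
  · intro i
    have h1 : Nat.lor B0 (Nat.shiftLeft p (Nat.mul 4 p)) =
        B0 ||| (Nat.shiftLeft (d4 B p) (Nat.mul 4 p)) := by
      rw [hd p hp, hβ]
      rfl
    rw [h1, Nat.testBit_or, h.b, sh_bit, ← Bool.and_or_distrib_right]
    congr 1
    rw [← Bool.decide_or]
    apply decide_eq_decide.2
    constructor
    · rintro (⟨h2, h3⟩ | h2)
      · exact ⟨by omega, by omega⟩
      · rw [h2, hβ]
        omega
    · rintro ⟨h2, h3⟩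
      by_cases h4 : i / 4 = p
      · exact Or.inr h4
      · have := hne _ h4
        exact Or.inl ⟨by omega, by omega⟩

theorem inv_open (hinv : ∀ p, β (β p) = p) {p : ℕ} {st : List ℕ} {r B0 : ℕ} (hp : p < k)
    (h : Inv k U B β p st r B0) (hu : tb U p = true) (hβ : p < β p) :
    Inv k U B β (p + 1) (p :: st) (Nat.pred r) B0 := by
  have hne : ∀ q, q < p → β q ≠ p := by
    intro q hq h1
    have h2 := hinv q
    rw [h1] at h2
    omega
  refine ⟨hp, ?_, ?_, ?_, ?_⟩
  · rw [List.pairwise_cons]
    refine ⟨fun q hq => ?_, h.dec⟩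
    exact ((h.mem q).1 hq).1
  · intro q
    rw [List.mem_cons, h.mem]
    constructor
    · rintro (rfl | ⟨h1, h2⟩)
      · exact ⟨by omega, hβ⟩
      · have := hne q h1
        exact ⟨by omega, by omega⟩
    · rintro ⟨h1, h2⟩
      rcases Nat.lt_succ_iff_lt_or_eq.1 h1 with h3 | h3
      · exact Or.inr ⟨h3, by omega⟩
      · exact Or.inl h3
  · rw [h.r, used_card_of_true hp hu]
    rfl
  · intro i
    rw [h.b]
    congr 1
    apply decide_eq_decide.2
    constructor
    · rintro ⟨h2, h3⟩
      exact ⟨by omega, by omega⟩
    · rintro ⟨h2, h3⟩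
      have h4 : i / 4 ≠ p := by
        intro h4
        rw [h4] at h3
        omega
      have := hne (i / 4) (by omega)
      exact ⟨by omega, by omega⟩

theorem open_le (hinv : ∀ p, β (β p) = p) (hlt : ∀ p < k, β p < k)
    (hU : ∀ j < k, (tb U j = true ↔ β j ≠ j)) {p : ℕ} {st : List ℕ} {r B0 : ℕ}
    (h : Inv k U B β p st r B0) : st.length ≤ r := by
  rw [h.r]
  have hnd : st.Nodup := h.dec.imp (fun hab => ne_of_gt hab)
  rw [← List.toFinset_card_of_nodup hnd]
  apply Finset.card_le_card_of_injOn β
  · intro q hq
    have hq' := (h.mem q).1 (List.mem_toFinset.1 hq)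
    have hqk : q < k := lt_of_lt_of_le hq'.1 h.le
    simp only [used, Finset.coe_filter, Finset.mem_range, Set.mem_ofPred_eq]
    refine ⟨hlt q hqk, hq'.2, ?_⟩
    rw [hU _ (hlt q hqk), hinv]
    omega
  · intro q _ q' _ h'
    have h1 : β q = β q' := h'
    rw [← hinv q, h1, hinv]

theorem inv_close (hinv : ∀ p, β (β p) = p) (hd : ∀ j < k, d4 B j = β j)
    (hnc : ∀ i j l m, i < j → j < l → l < m → β i = l → β j = m → False)
    {p : ℕ} {st : List ℕ} {r B0 : ℕ} (hp : p < k)
    (h : Inv k U B β p st r B0) (hu : tb U p = true) (hβ : β p < p) :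
    ∃ st', st = β p :: st' ∧ Inv k U B β (p + 1) st' (Nat.pred r)
      (Nat.lor B0 (Nat.lor (Nat.shiftLeft p (Nat.mul 4 (β p)))
        (Nat.shiftLeft (β p) (Nat.mul 4 p)))) := by
  have hmem : β p ∈ st := by
    rw [h.mem, hinv]
    exact ⟨hβ, le_rfl⟩
  have hne : ∀ q, q ≠ β p → β q ≠ p := by
    intro q hq h1
    apply hq
    rw [← h1, hinv]
  cases hst : st with
  | nil => rw [hst] at hmem; simp at hmem
  | cons q1 st' =>
    rw [hst] at hmem
    have hdec := h.dec
    rw [hst, List.pairwise_cons] at hdec
    have hq1 : q1 = β p := by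
      rcases List.mem_cons.1 hmem with h1 | h1
      · exact h1.symm
      · exfalso
        have h2 := hdec.1 _ h1
        have h3 := (h.mem q1).1 (by rw [hst]; exact List.mem_cons_self)
        have h4 := hne q1 (by omega)
        exact hnc (β p) q1 p (β q1) h2 h3.1 (by omega) (hinv p) rfl
    subst hq1
    refine ⟨st', rfl, hp, hdec.2, ?_, ?_, ?_⟩
    · intro q
      have hm := h.mem q
      rw [hst, List.mem_cons] at hm
      constructor
      · intro hq
        have h1 := hm.1 (Or.inr hq)
        have h2 : q < β p := hdec.1 q hq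
        have h3 := hne q (by omega)
        exact ⟨by omega, by omega⟩
      · rintro ⟨h1, h2⟩
        have h3 : q ≠ p := by
          rintro rfl
          omega
        rcases hm.2 ⟨by omega, by omega⟩ with h4 | h4
        · rw [h4, hinv] at h2
          omega
        · exact h4
    · rw [h.r, used_card_of_true hp hu]
      rfl
    · intro i
      have hk : β p < k := by omega
      have h1 : Nat.lor B0 (Nat.lor (Nat.shiftLeft p (Nat.mul 4 (β p)))
          (Nat.shiftLeft (β p) (Nat.mul 4 p))) =
          B0 ||| ((Nat.shiftLeft (d4 B (β p)) (Nat.mul 4 (β p))) |||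
            (Nat.shiftLeft (d4 B p) (Nat.mul 4 p))) := by
        rw [hd p hp, hd (β p) hk, hinv]
        rfl
      rw [h1, Nat.testBit_or, Nat.testBit_or, h.b, sh_bit, sh_bit, ← Bool.and_or_distrib_right,
        ← Bool.and_or_distrib_right]
      congr 1
      rw [← Bool.decide_or, ← Bool.decide_or]
      apply decide_eq_decide.2
      constructor
      · rintro (⟨h2, h3⟩ | h2 | h2)
        · exact ⟨by omega, by omega⟩
        · rw [h2, hinv]
          omega
        · rw [h2]
          omega
      · rintro ⟨h2, h3⟩
        by_cases h4 : i / 4 = p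
        · exact Or.inr (Or.inr h4)
        · by_cases h5 : i / 4 = β p
          · exact Or.inr (Or.inl h5)
          · have := hne _ h5
            exact Or.inl ⟨by omega, by omega⟩

end

theorem cands_succ (F : Code) (S : Tri') (G Tm U m f p : ℕ) (st : List ℕ) (r B0 : ℕ) (T : TT) :
    cands F S G Tm U m (f + 1) p st r B0 T =
      cond (tb U p)
        (match (cond (Nat.ble (Nat.succ st.length) (Nat.pred r))
              (cands F S G Tm U m f (p + 1) (p :: st) (Nat.pred r) B0 T.o) (some [])) with
          | none => none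
          | some l1 =>
            match st with
            | [] => some l1
            | q :: st' =>
              match (cands F S G Tm U m f (p + 1) st' (Nat.pred r)
                  (Nat.lor B0 (Nat.lor (Nat.shiftLeft p (Nat.mul 4 q))
                  (Nat.shiftLeft q (Nat.mul 4 p))))
                    (cond (Nat.beq (d2 G (d6 F.Q p)) (d2 G (d6 F.Q q))) T.s T.d)) with
              | none => none
              | some l2 => some (l1 ++ l2))
        (cands F S G Tm U m f (p + 1) st r (Nat.lor B0 (Nat.shiftLeft p (Nat.mul 4 p))) T.u) := rfl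

theorem main (F : Code) (S : Tri') (G Tm U m B : ℕ) (β : ℕ → ℕ) (hinv : ∀ p, β (β p) = p)
    (hlt : ∀ p < F.k, β p < F.k) (hd : ∀ j < F.k, d4 B j = β j)
    (hU : ∀ j < F.k, (tb U j = true ↔ β j ≠ j))
    (hnc : ∀ i j l m, i < j → j < l → l < m → β i = l → β j = m → False)
    (hB' : B < 2 ^ (4 * F.k)) (h1 : sing F.k m B U = true) (h2 : dup F S Tm U B = false) :
    ∀ (f p : ℕ) (st : List ℕ) (r B0 : ℕ) (T : TT) (l : List ℕ), p + f = F.k →
      Inv F.k U B β p st r B0 → cands F S G Tm U m f p st r B0 T = some l →
      ∃ w ∈ l, look β (fun p => decide (d2 G (d6 F.Q p) = d2 G (d6 F.Q (β p)))) f p T = some w := by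
  intro f
  induction f with
  | zero =>
    intro p st r B0 T l hpf hI hc
    have hp : p = F.k := hpf
    have hBB : B0 = B := by
      apply Nat.eq_of_testBit_eq
      intro i
      rw [hI.b]
      by_cases hi : i / 4 < F.k
      · have h3 : i / 4 < p ∧ β (i / 4) < p := by
          rw [hp]
          exact ⟨hi, hlt _ hi⟩
        simp [h3]
      · have h3 : B.testBit i = false := by
          apply Nat.testBit_lt_two_pow
          exact lt_of_lt_of_le hB' (Nat.pow_le_pow_right (by norm_num) (by omega))
        rw [h3, Bool.and_false]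
    subst hBB
    have h3 : cands F S G Tm U m 0 p st r B0 T = cond (sing F.k m B0 U)
      (cond (dup F S Tm U B0) (some [])
        (match T with
          | .leaf w => some [w]
          | _ => none)) (some []) := rfl
    rw [h3, h1, h2] at hc
    cases T with
    | nil => exact absurd hc (by simp)
    | node u o s d => exact absurd hc (by simp)
    | leaf w =>
      have h4 : [w] = l := Option.some.inj hc
      refine ⟨w, ?_, rfl⟩
      rw [← h4]
      exact List.mem_singleton_self w
  | succ f ih =>
    intro p st r B0 T l hpf hI hc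
    have hp : p < F.k := by omega
    rw [cands_succ] at hc
    have hlook : ∀ e : ℕ → Bool, look β e (f + 1) p T = if β p = p then look β e f (p + 1) T.u
      else if p < β p then look β e f (p + 1) T.o
      else if e p = true then look β e f (p + 1) T.s
      else look β e f (p + 1) T.d := fun _ => rfl
    rw [hlook]
    clear hlook
    cases hu : tb U p with
    | false =>
      rw [hu, cond_false] at hc
      have hβ : β p = p := by
        by_contra h1
        rw [(hU p hp).2 h1] at hu
        exact absurd hu (by simp)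
      rw [if_pos hβ]
      exact ih (p + 1) st r _ T.u l (by omega) (inv_unused hinv hd hU hp hI hu) hc
    | true =>
      rw [hu, cond_true] at hc
      have hβ : β p ≠ p := (hU p hp).1 hu
      rw [if_neg hβ]
      by_cases hβ' : p < β p
      · rw [if_pos hβ']
        have hI' := inv_open hinv hp hI hu hβ'
        have hle := open_le hinv hlt hU hI'
        have h4 : Nat.ble (Nat.succ st.length) (Nat.pred r) = true := by rw [Nat.ble_eq]; exact hle
        rw [h4, cond_true] at hc
        cases hc1 : cands F S G Tm U m f (p + 1) (p :: st) (Nat.pred r) B0 T.o with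
        | none =>
          rw [hc1] at hc
          exact absurd hc (by simp)
        | some l1 =>
          obtain ⟨w, hw, hw'⟩ := ih (p + 1) _ _ _ _ l1 (by omega) hI' hc1
          refine ⟨w, ?_, hw'⟩
          rw [hc1] at hc
          cases st with
          | nil =>
            have h5 : l1 = l := Option.some.inj hc
            rw [← h5]
            exact hw
          | cons q st' =>
            change (match (cands F S G Tm U m f (p + 1) st' (Nat.pred r)
                  (Nat.lor B0 (Nat.lor (Nat.shiftLeft p (Nat.mul 4 q))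
                  (Nat.shiftLeft q (Nat.mul 4 p))))
                    (cond (Nat.beq (d2 G (d6 F.Q p)) (d2 G (d6 F.Q q))) T.s T.d)) with
              | none => none
              | some l2 => some (l1 ++ l2)) = some l at hc
            split at hc
            · exact absurd hc (by simp)
            · have h5 := Option.some.inj hc
              rw [← h5]
              exact List.mem_append_left _ hw
      · rw [if_neg hβ']
        obtain ⟨st', hst, hI'⟩ := inv_close hinv hd hnc hp hI hu (by omega)
        subst hst
        split at hc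
        · exact absurd hc (by simp)
        · rename_i l1 hl1
          change (match (cands F S G Tm U m f (p + 1) st' (Nat.pred r)
                  (Nat.lor B0 (Nat.lor (Nat.shiftLeft p (Nat.mul 4 (β p)))
                  (Nat.shiftLeft (β p) (Nat.mul 4 p))))
                    (cond (Nat.beq (d2 G (d6 F.Q p)) (d2 G (d6 F.Q (β p)))) T.s T.d)) with
              | none => none
              | some l2 => some (l1 ++ l2)) = some l at hc
          split at hc
          · exact absurd hc (by simp)
          · rename_i l2 hl2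
            have h5 := Option.some.inj hc
            obtain ⟨w, hw, hw'⟩ := ih (p + 1) _ _ _ _ l2 (by omega) hI' hl2
            refine ⟨w, ?_, ?_⟩
            · rw [← h5]
              exact List.mem_append_right _ hw
            · by_cases he : d2 G (d6 F.Q p) = d2 G (d6 F.Q (β p))
              · have h6 : Nat.beq (d2 G (d6 F.Q p)) (d2 G (d6 F.Q (β p))) = true :=
                  by rw [Nat.beq_eq]; exact he
                rw [h6, cond_true] at hw'
                rw [if_pos (by simpa using he)]
                exact hw'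
              · have h6 : Nat.beq (d2 G (d6 F.Q p)) (d2 G (d6 F.Q (β p))) = false := by
                  rw [← Bool.not_eq_true, Nat.beq_eq]
                  exact he
                rw [h6, cond_false] at hw'
                rw [if_neg (by simpa using he)]
                exact hw'

end FS6

/-- FS-6 -/
theorem cands_sound (F : Code) (hF : CodeOK F) (S : Tri') (T : TT) (G Tm U m : ℕ) (l : List ℕ)
    (h : cands F S G Tm U m F.k 0 [] (popc U F.k) 0 T = some l)
    (b : Fin F.k → Fin F.k) (hb : NC b) (B : ℕ) (hB : CodeB b B) (hB' : B < 2 ^ (4 * F.k))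
    (hU : CodeU b U) (h1 : sing F.k m B U = true) (h2 : dup F S Tm U B = false) :
    ∃ w ∈ l, look (extB b) (fun p => decide (d2 G (d6 F.Q p) = d2 G (d6 F.Q (extB b p)))) F.k 0 T
      = some w := by
  have hpos : ∀ p (hp : p < F.k), extB b p = b ⟨p, hp⟩ := fun p hp => dif_pos hp
  have hneg : ∀ p, ¬ p < F.k → extB b p = p := fun p hp => dif_neg hp
  have hlt : ∀ p < F.k, extB b p < F.k := by
    intro p hp
    rw [hpos p hp]
    exact (b ⟨p, hp⟩).2
  have hinv : ∀ p, extB b (extB b p) = p := by
    intro p
    by_cases hp : p < F.k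
    · rw [hpos (extB b p) (hlt p hp)]
      have h3 : (⟨extB b p, hlt p hp⟩ : Fin F.k) = b ⟨p, hp⟩ := Fin.ext (hpos p hp)
      rw [h3, hb.inv]
    · rw [hneg p hp, hneg p hp]
  apply FS6.main F S G Tm U m B (extB b) hinv hlt ?_ ?_ ?_ hB' h1 h2 F.k 0 [] _ 0 T l
    (Nat.zero_add _) ?_ h
  · intro j hj
    rw [hpos j hj]
    exact hB ⟨j, hj⟩
  · intro j hj
    have h3 := hU.2 ⟨j, hj⟩
    rw [hpos j hj, h3, Ne, Ne, Fin.ext_iff]
  · intro i j l m hij hjl hlm hi hj
    by_cases hm : m < F.k
    · have hj' : j < F.k := by omega
      have hi' : i < F.k := by omega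
      have hl' : l < F.k := by omega
      apply hb.nc ⟨i, hi'⟩ ⟨j, hj'⟩ ⟨l, hl'⟩ ⟨m, hm⟩ hij hjl hlm
      · apply Fin.ext
        rw [← hpos]
        exact hi
      · apply Fin.ext
        rw [← hpos]
        exact hj
    · have h3 := hinv j
      rw [hj, hneg m hm] at h3
      omega
  · refine ⟨Nat.zero_le _, List.Pairwise.nil, ?_, ?_, ?_⟩
    · intro q
      simp
    · rw [FS6.popc_eq]
      congr 1
      ext i
      simp [FS6.used]
    · intro i
      simp

end Pool.Agent.Helper17.CT
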