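import Pool.Agent.Helper16.CT.Cands
import Pool.Agent.Helper30.CT.Trs
import Pool.Agent.Helper88.CT.SingOfHam
import Pool.Agent.Helper11.CT.Loopy
import Pool.Agent.Helper11.CT.OkSy

set_option autoImplicit false

/-! FS-11: the case of constant port colours. -/

namespace Pool.Agent.Helper17.CT

namespace FS11

open FS6

theorem tb_eq (a i : ℕ) : tb a i = a.testBit i := by
  rw [Nat.testBit_eq_decide_div_mod_eq, ← Nat.shiftRight_eq_div_pow]
  have h0 : tb a i = Nat.beq ((a >>> i) % 2) 1 := rfl
  rw [h0, Bool.eq_iff_iff, Nat.beq_eq, decide_eq_true_iff]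

theorem d4_lt (X j : ℕ) : d4 X j < 16 := Nat.mod_lt _ (by norm_num)

theorem d4_testBit (X j t : ℕ) :
    (d4 X j).testBit t = (decide (t < 4) && X.testBit (4 * j + t)) := by
  rw [d4_def, Nat.testBit_mod_two_pow, Nat.testBit_shiftRight]

theorem dig_bit (v j i : ℕ) (hv : v < 16) :
    (Nat.shiftLeft v (Nat.mul 4 j)).testBit i = (decide (i / 4 = j) && v.testBit (i % 4)) := by
  have h0 : Nat.shiftLeft v (Nat.mul 4 j) = v <<< (4 * j) := rfl
  rw [h0, Nat.testBit_shiftLeft]
  by_cases h : i / 4 = j
  · have h1 : 4 * j ≤ i := by omega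
    have h3 : i - 4 * j = i % 4 := by omega
    simp [h, h1, h3]
  · by_cases h1 : 4 * j ≤ i
    · have h2 : v.testBit (i - 4 * j) = false := by
        apply Nat.testBit_lt_two_pow
        calc v < 2 ^ 4 := hv
          _ ≤ 2 ^ (i - 4 * j) := Nat.pow_le_pow_right (by norm_num) (by omega)
      simp [h, h2]
    · simp [h, h1]

theorem exists_code (g : ℕ → ℕ) (hg : ∀ j, g j < 16) (K : ℕ) :
    ∃ B, B < 2 ^ (4 * K) ∧ ∀ j < K, d4 B j = g j := by
  induction K with
  | zero => exact ⟨0, by simp, fun j hj => absurd hj (Nat.not_lt_zero j)⟩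
  | succ K ih =>
    obtain ⟨B, hB, h⟩ := ih
    have hbit : ∀ i, (B ||| Nat.shiftLeft (g K) (Nat.mul 4 K)).testBit i =
        (B.testBit i || (decide (i / 4 = K) && (g K).testBit (i % 4))) := by
      intro i
      rw [Nat.testBit_or, dig_bit _ _ _ (hg K)]
    refine ⟨B ||| Nat.shiftLeft (g K) (Nat.mul 4 K), ?_, ?_⟩
    · apply Nat.lt_pow_two_of_testBit
      intro i hi
      rw [hbit]
      have h1 : B.testBit i = false := by
        apply Nat.testBit_lt_two_pow
        exact lt_of_lt_of_le hB (Nat.pow_le_pow_right (by norm_num) (by omega))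
      have h2 : ¬ i / 4 = K := by omega
      simp [h1, h2]
    · intro j hj
      apply Nat.eq_of_testBit_eq
      intro t
      rw [d4_testBit, hbit]
      by_cases ht : t < 4
      · have h3 : (4 * j + t) / 4 = j := by omega
        have h4 : (4 * j + t) % 4 = t := by omega
        rw [h3, h4]
        rcases Nat.lt_succ_iff_lt_or_eq.1 hj with hj' | hj'
        · have h5 : (d4 B j).testBit t = (g j).testBit t := by rw [h j hj']
          rw [d4_testBit] at h5
          have h6 : ¬ j = K := by omega
          simp only [ht, decide_true, Bool.true_and, h6, decide_false, Bool.false_and,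
            Bool.or_false] at h5 ⊢
          exact h5
        · have h5 : B.testBit (4 * j + t) = false := by
            apply Nat.testBit_lt_two_pow
            exact lt_of_lt_of_le hB (Nat.pow_le_pow_right (by norm_num) (by omega))
          rw [h5, hj']
          simp [ht]
      · have h3 : (g j).testBit t = false := by
          apply Nat.testBit_lt_two_pow
          calc g j < 2 ^ 4 := hg j
            _ ≤ 2 ^ t := Nat.pow_le_pow_right (by norm_num) (by omega)
        rw [h3]
        simp [ht]

/-- the digits of a restricted pairing -/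
theorem resB_bit (U B : ℕ) : ∀ f acc, f ≤ 16 → ∀ i, (resB U B f acc).testBit i =
    (acc.testBit i || (decide (i / 4 < f) &&
      (cond (tb U (i / 4)) (d4 B (i / 4)) (i / 4)).testBit (i % 4))) := by
  intro f
  induction f with
  | zero =>
    intro acc _ i
    simp [resB]
  | succ f ih =>
    intro acc hf i
    have h0 : resB U B (f + 1) acc = resB U B f (acc |||
      (Nat.shiftLeft (cond (tb U f) (d4 B f) f) (Nat.mul 4 f))) := rfl
    have hv : cond (tb U f) (d4 B f) f < 16 := by
      cases tb U f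
      · show f < 16
        omega
      · exact d4_lt B f
    rw [h0, ih _ (by omega), Nat.testBit_or, dig_bit _ _ _ hv, Bool.or_assoc]
    congr 1
    by_cases h : i / 4 = f
    · rw [h]
      simp
    · by_cases h1 : i / 4 < f
      · have h2 : i / 4 < f + 1 := by omega
        simp [h, h1, h2]
      · have h2 : ¬ i / 4 < f + 1 := by omega
        simp [h, h1, h2]

theorem resB_d4 (U B k : ℕ) (hk : k ≤ 16) (j : ℕ) (hj : j < k) :
    d4 (resB U B k 0) j = cond (tb U j) (d4 B j) j := by
  apply Nat.eq_of_testBit_eq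
  intro t
  rw [d4_testBit, resB_bit U B k 0 hk]
  have hv : cond (tb U j) (d4 B j) j < 16 := by
    cases tb U j
    · show j < 16
      omega
    · exact d4_lt B j
  by_cases ht : t < 4
  · have h3 : (4 * j + t) / 4 = j := by omega
    have h4 : (4 * j + t) % 4 = t := by omega
    rw [h3, h4]
    simp [ht, hj]
  · have h3 : (cond (tb U j) (d4 B j) j).testBit t = false := by
      apply Nat.testBit_lt_two_pow
      calc _ < 2 ^ 4 := hv
        _ ≤ 2 ^ t := Nat.pow_le_pow_right (by norm_num) (by omega)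
    rw [h3]
    simp [ht]

theorem maskOf_bit (G i : ℕ) : ∀ f acc x, (maskOf G i f acc).testBit x =
    (acc.testBit x || decide (x < f ∧ d2 G x ≠ i)) := by
  intro f
  induction f with
  | zero =>
    intro acc x
    simp [maskOf]
  | succ f ih =>
    intro acc x
    have h0 : maskOf G i (f + 1) acc = maskOf G i f
      (cond (Nat.beq (d2 G f) i) acc (acc ||| (1 <<< f))) := rfl
    rw [h0, ih]
    by_cases h : d2 G f = i
    · have h1 : Nat.beq (d2 G f) i = true := by rw [Nat.beq_eq]; exact h
      rw [h1, cond_true]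
      congr 1
      apply decide_eq_decide.2
      constructor
      · rintro ⟨h2, h3⟩
        exact ⟨by omega, h3⟩
      · rintro ⟨h2, h3⟩
        refine ⟨?_, h3⟩
        rcases Nat.lt_succ_iff_lt_or_eq.1 h2 with h4 | h4
        · exact h4
        · rw [h4] at h3
          exact absurd h h3
    · have h1 : Nat.beq (d2 G f) i = false := by
        rw [← Bool.not_eq_true, Nat.beq_eq]
        exact h
      rw [h1, cond_false, Nat.testBit_or, Bool.or_assoc]
      congr 1
      rw [Nat.testBit_shiftLeft]
      by_cases hx : x = f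
      · subst hx
        simp [h]
      · have h2 : (decide (x ≥ f) && Nat.testBit 1 (x - f)) = false := by
          by_cases h3 : f ≤ x
          · have h4 : x - f ≠ 0 := by omega
            have h5 : Nat.testBit 1 (x - f) = false := by
              apply Nat.testBit_lt_two_pow
              exact Nat.one_lt_two_pow h4
            rw [h5, Bool.and_false]
          · simp [h3]
        rw [h2, Bool.false_or]
        apply decide_eq_decide.2
        constructor
        · rintro ⟨h2, h3⟩
          exact ⟨by omega, h3⟩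
        · rintro ⟨h2, h3⟩
          exact ⟨by omega, h3⟩

theorem shiftRight_zero {a k : ℕ} (h : Nat.beq (Nat.shiftRight a k) 0 = true) : a < 2 ^ k := by
  rw [Nat.beq_eq] at h
  have h1 : a >>> k = 0 := h
  rw [Nat.shiftRight_eq_div_pow] at h1
  exact (Nat.div_eq_zero_iff_lt (by positivity)).1 h1

theorem okSy_bounds (F : Code) (s : Sy) (h : okSy F s = true) :
    s.U < 2 ^ F.k ∧ s.T < 2 ^ (3 * F.n) := by
  have h0 : ∃ A A' : Bool, okSy F s = (A && (A' &&
      (match trs F (fun x => tb s.T x) F.k 0 0 0 with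
    | none => false
    | some (m, cov) => and (Nat.beq m s.m) (and (Nat.beq cov (Nat.pred (Nat.shiftLeft 1 F.n)))
        (and (not (Nat.beq s.U 0)) (and (Nat.beq (Nat.shiftRight s.U F.k) 0)
          (Nat.beq (Nat.shiftRight s.T (Nat.mul 3 F.n)) 0))))))) := ⟨_, _, rfl⟩
  obtain ⟨A, A', h0⟩ := h0
  rw [h0, Bool.and_eq_true, Bool.and_eq_true] at h
  obtain ⟨-, -, h⟩ := h
  split at h
  · exact absurd h (by simp)
  · rename_i m cov _
    have h1 : (Nat.beq m s.m && (Nat.beq cov (Nat.pred (Nat.shiftLeft 1 F.n)) &&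
        (!(Nat.beq s.U 0) && (Nat.beq (Nat.shiftRight s.U F.k) 0 &&
          Nat.beq (Nat.shiftRight s.T (3 * F.n)) 0)))) = true := h
    simp only [Bool.and_eq_true] at h1
    exact ⟨shiftRight_zero h1.2.2.2.1, shiftRight_zero h1.2.2.2.2⟩

theorem allL_wit {α : Type} (g P : α → Bool) : ∀ l : List α, allL g l = true →
    allL (fun s => not (P s)) l = false → ∃ s, g s = true ∧ P s = true := by
  intro l
  induction l with
  | nil =>
    intro _ h
    exact absurd h (by simp [allL])
  | cons a l ih =>
    intro h1 h2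
    have h3 : allL g (a :: l) = (g a && allL g l) := rfl
    have h4 : allL (fun s => not (P s)) (a :: l) = (!(P a) && allL (fun s => not (P s)) l) := rfl
    rw [h3, Bool.and_eq_true] at h1
    rw [h4, Bool.and_eq_false_iff] at h2
    rcases h2 with h2 | h2
    · refine ⟨a, h1.1, ?_⟩
      simpa using h2
    · exact ih h1.2 h2

theorem all_wit (g P : Sy → Bool) : ∀ S : Tri', Tri'.all g S = true →
    Tri'.all (fun s => not (P s)) S = false → ∃ s, g s = true ∧ P s = true := by
  intro S
  induction S with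
  | leaf l => exact allL_wit g P l
  | node l r ihl ihr =>
    intro h1 h2
    have h3 : Tri'.all g (.node l r) = (Tri'.all g l && Tri'.all g r) := rfl
    have h4 : Tri'.all (fun s => not (P s)) (.node l r) =
      (Tri'.all (fun s => not (P s)) l && Tri'.all (fun s => not (P s)) r) := rfl
    rw [h3, Bool.and_eq_true] at h1
    rw [h4, Bool.and_eq_false_iff] at h2
    rcases h2 with h2 | h2
    · exact ihl h1.1 h2
    · exact ihr h1.2 h2

theorem ncE_succ (test : ℕ → Bool) (U f p : ℕ) (st : List ℕ) (B0 : ℕ) :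
    ncE test U (f + 1) p st B0 = cond (tb U p)
      (and (ncE test U f (p + 1) (p :: st) B0)
        (match st with
          | [] => true
          | q :: st' => ncE test U f (p + 1) st' (Nat.lor B0 (Nat.lor
              (Nat.shiftLeft p (Nat.mul 4 q)) (Nat.shiftLeft q (Nat.mul 4 p))))))
      (ncE test U f (p + 1) st (Nat.lor B0 (Nat.shiftLeft p (Nat.mul 4 p)))) := rfl

theorem ncE_sound {k U B : ℕ} {β : ℕ → ℕ} (test : ℕ → Bool) (hinv : ∀ p, β (β p) = p)
    (hlt : ∀ p < k, β p < k) (hd : ∀ j < k, d4 B j = β j)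
    (hU : ∀ j < k, (tb U j = true ↔ β j ≠ j))
    (hnc : ∀ i j l m, i < j → j < l → l < m → β i = l → β j = m → False)
    (hB' : B < 2 ^ (4 * k)) :
    ∀ (f p : ℕ) (st : List ℕ) (r B0 : ℕ), p + f = k → Inv k U B β p st r B0 →
      ncE test U f p st B0 = true → test B = true := by
  intro f
  induction f with
  | zero =>
    intro p st r B0 hpf hI hc
    have hp : p = k := hpf
    have hBB : B0 = B := by
      apply Nat.eq_of_testBit_eq
      intro i
      rw [hI.b]
      by_cases hi : i / 4 < k
      · have h3 : i / 4 < p ∧ β (i / 4) < p := by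
          rw [hp]
          exact ⟨hi, hlt _ hi⟩
        simp [h3]
      · have h3 : B.testBit i = false := by
          apply Nat.testBit_lt_two_pow
          exact lt_of_lt_of_le hB' (Nat.pow_le_pow_right (by norm_num) (by omega))
        rw [h3, Bool.and_false]
    subst hBB
    have hst : st = [] := by
      cases st with
      | nil => rfl
      | cons q st' =>
        exfalso
        have h1 := (hI.mem q).1 List.mem_cons_self
        have h2 := hlt q (by omega)
        omega
    subst hst
    exact hc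
  | succ f ih =>
    intro p st r B0 hpf hI hc
    have hp : p < k := by omega
    rw [ncE_succ] at hc
    cases hu : tb U p with
    | false =>
      rw [hu, cond_false] at hc
      exact ih (p + 1) st r _ (by omega) (inv_unused hinv hd hU hp hI hu) hc
    | true =>
      rw [hu, cond_true] at hc
      have hβ : β p ≠ p := (hU p hp).1 hu
      have hc' := (Bool.and_eq_true _ _).mp hc
      by_cases hβ' : p < β p
      · exact ih (p + 1) _ _ _ (by omega) (inv_open hinv hp hI hu hβ') hc'.1
      · obtain ⟨st', hst, hI'⟩ := inv_close hinv hd hnc hp hI hu (by omega)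
        subst hst
        exact ih (p + 1) _ _ _ (by omega) hI' hc'.2

/-- one colour class pair that uses all ports -/
theorem pair_facts (F : Code) (hF : CodeOK F) (D : Data (piece F hF)) (G : ℕ)
    (hGc : ∀ x : Fin (3 * F.n), d2 G x = (D.γ x : ℕ)) (i : Fin 3) (m cov : ℕ)
    (h : trs F (fun x => not (Nat.beq (d2 G x) i)) F.k 0 0 0 = some (m, cov))
    (hne : ∃ j, D.b (D.T i) j ≠ j) (B U : ℕ) (hB : CodeB (D.b (D.T i)) B)
    (hU : CodeU (D.b (D.T i)) U) : cov = 2 ^ F.n - 1 ∧ sing F.k m B U = true := by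
  have hu : ∀ x : Fin (3 * F.n), (fun x => not (Nat.beq (d2 G x) i)) x =
      decide (D.γ x ≠ i) := by
    intro x
    show (!(Nat.beq (d2 G x) i)) = decide (D.γ x ≠ i)
    rw [Bool.eq_iff_iff, Bool.not_eq_true', decide_eq_true_iff, ← Bool.not_eq_true, Nat.beq_eq,
      hGc x, Ne, Fin.ext_iff]
  have hT := trs_spec F hF (fun x => decide (D.γ x ≠ i)) ⟨(D.ham i).ecl, (D.ham i).one⟩ _ hu m cov h
  exact sing_of_hamF F hF _ _ (D.inv (D.T i)) (D.ham i) m cov hT hne B U hB hU

theorem incov_false (F : Code) (hF : CodeOK F) (D : Data (piece F hF)) (G : ℕ)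
    (hGc : ∀ x : Fin (3 * F.n), d2 G x = (D.γ x : ℕ)) (i : Fin 3)
    (hne : ∃ j, D.b (D.T i) j ≠ j) (B U : ℕ) (hB : CodeB (D.b (D.T i)) B)
    (hU : CodeU (D.b (D.T i)) U) : incov F G i = false := by
  have h0 : incov F G i = (match trs F (fun x => not (Nat.beq (d2 G x) i)) F.k 0 0 0 with
    | none => false
    | some (_, cov) => not (Nat.beq cov (Nat.pred (Nat.shiftLeft 1 F.n)))) := rfl
  rw [h0]
  split
  · rfl
  · rename_i m cov h
    have h1 := (pair_facts F hF D G hGc i m cov h hne B U hB hU).1
    have h2 : Nat.pred (Nat.shiftLeft 1 F.n) = 2 ^ F.n - 1 := by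
      show (1 <<< F.n) - 1 = 2 ^ F.n - 1
      rw [Nat.shiftLeft_eq, one_mul]
    rw [h1, h2, Nat.beq_refl]
    rfl

end FS11

open FS6 FS11

/-- FS-11: the case of constant port colours -/
theorem no_data_cst (F : Code) (hF : CodeOK F) (S : Tri') (hS : Tri'.all (okSy F) S = true)
    (D : Data (piece F hF)) (hk : F.k ≠ 0)
    (hne : ∀ j j', D.γ ((piece F hF).q j) = D.γ ((piece F hF).q j'))
    (G : ℕ) (hGc : ∀ x : Fin (3 * F.n), d2 G x = (D.γ x : ℕ)) (c i j : ℕ)
    (hc : d2 G (d6 F.Q 0) = c) (hij : i ≠ j ∧ i ≠ c ∧ j ≠ c ∧ i < 3 ∧ j < 3)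
    (h : okCst F S G c i j = true) : False := by
  obtain ⟨hij1, hic, hjc, hi3, hj3⟩ := hij
  have hk15 : F.k ≤ 15 := by
    have h1 := (hF.q (F.k - 1) (by omega)).2
    have h2 := d4_lt F.P (d6 F.Q (F.k - 1))
    omega
  have hkpos : 0 < F.k := Nat.pos_of_ne_zero hk
  -- the colour of the ports
  have hcol : ∀ p : Fin F.k, (D.γ ((piece F hF).q p) : ℕ) = c := by
    intro p
    rw [hne p ⟨0, hkpos⟩, ← hGc]
    exact hc
  have hc3 : c < 3 := by
    rw [← hcol ⟨0, hkpos⟩]
    exact (D.γ _).2
  -- the perfect matching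
  rcases D.cst with ⟨p, p', hpp⟩ | ⟨m, hm1, hm2, hm3, hm4⟩
  · exact hpp (hne p p')
  have hbT : ∀ a : Fin 3, (a : ℕ) ≠ c → D.b (D.T a) = m := by
    intro a ha
    funext p
    rcases hm3 (D.T a) p with h1 | h1
    · exfalso
      have h2 := (D.comp a p).1
      have h3 : D.γ ((piece F hF).q p) ≠ a := by
        intro h4
        apply ha
        rw [← h4]
        exact hcol p
      exact h2.1 h3 h1
    · exact h1
  set i' : Fin 3 := ⟨i, hi3⟩ with hi'
  set j' : Fin 3 := ⟨j, hj3⟩ with hj'
  set c' : Fin 3 := ⟨c, hc3⟩ with hc'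
  have hbi : D.b (D.T i') = m := hbT i' hic
  have hbj : D.b (D.T j') = m := hbT j' hjc
  have hmne : ∃ p, m p ≠ p := ⟨⟨0, hkpos⟩, hm2 _⟩
  -- the code of the matching
  let g : ℕ → ℕ := fun p => if hp : p < F.k then (m ⟨p, hp⟩ : ℕ) else 0
  have hg : ∀ p, g p < 16 := by
    intro p
    by_cases hp : p < F.k
    · have h1 : g p = (m ⟨p, hp⟩ : ℕ) := dif_pos hp
      rw [h1]
      have h2 := (m ⟨p, hp⟩).2
      omega
    · have h1 : g p = 0 := dif_neg hp
      rw [h1]
      norm_num
  obtain ⟨B, hBlt, hBg⟩ := exists_code g hg F.k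
  have hB : CodeB m B := by
    intro p
    rw [hBg p p.2]
    exact dif_pos p.2
  have hUtb : ∀ p < F.k, tb (2 ^ F.k - 1) p = true := by
    intro p hp
    rw [tb_eq, Nat.testBit_two_pow_sub_one]
    simp [hp]
  have hU : CodeU m (2 ^ F.k - 1) := by
    refine ⟨?_, ?_⟩
    · have : 0 < 2 ^ F.k := by positivity
      omega
    · intro p
      exact ⟨fun _ => hm2 p, fun _ => hUtb p p.2⟩
  -- the checks
  have h0 : okCst F S G c i j = (loopy F G c || (incov F G i || (incov F G j ||
    (match trs F (fun x => not (Nat.beq (d2 G x) i)) F.k 0 0 0 with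
    | none => false
    | some (m1, _) =>
      match trs F (fun x => not (Nat.beq (d2 G x) j)) F.k 0 0 0 with
      | none => false
      | some (m2, _) =>
          ncE (fun B =>
            or (not (and (sing F.k m1 B (2 ^ F.k - 1)) (sing F.k m2 B (2 ^ F.k - 1))))
              (wit F S G B)) (2 ^ F.k - 1) F.k 0 [] 0)))) := by
    have h1 : Nat.pred (Nat.shiftLeft 1 F.k) = 2 ^ F.k - 1 := by
      show (1 <<< F.k) - 1 = 2 ^ F.k - 1
      rw [Nat.shiftLeft_eq, one_mul]
    rw [← h1]
    rfl
  have hloop : loopy F G c = false := by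
    apply not_loopy F hF (fun x => decide (D.γ x ≠ c')) (D.b (D.T c')) (D.ham c')
    · intro p
      rw [decide_eq_false_iff_not, not_not]
      exact Fin.ext (hcol p)
    · intro x
      rw [decide_eq_true_iff, hGc x, Ne, Ne, Fin.ext_iff]
  have hinci : incov F G i = false :=
    incov_false F hF D G hGc i' (by rw [hbi]; exact hmne) B _ (by rw [hbi]; exact hB)
      (by rw [hbi]; exact hU)
  have hincj : incov F G j = false :=
    incov_false F hF D G hGc j' (by rw [hbj]; exact hmne) B _ (by rw [hbj]; exact hB)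
      (by rw [hbj]; exact hU)
  rw [h0, hloop, hinci, hincj, Bool.false_or, Bool.false_or, Bool.false_or] at h
  split at h
  · exact absurd h (by simp)
  rename_i m1 cov1 ht1
  split at h
  · exact absurd h (by simp)
  rename_i m2 cov2 ht2
  have hs1 := (pair_facts F hF D G hGc i' m1 cov1 ht1 (by rw [hbi]; exact hmne) B _
    (by rw [hbi]; exact hB) (by rw [hbi]; exact hU)).2
  have hs2 := (pair_facts F hF D G hGc j' m2 cov2 ht2 (by rw [hbj]; exact hmne) B _
    (by rw [hbj]; exact hB) (by rw [hbj]; exact hU)).2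
  -- completeness of the enumeration
  have hpos : ∀ p (hp : p < F.k), extB m p = m ⟨p, hp⟩ := fun p hp => dif_pos hp
  have hneg : ∀ p, ¬ p < F.k → extB m p = p := fun p hp => dif_neg hp
  have hlt : ∀ p < F.k, extB m p < F.k := by
    intro p hp
    rw [hpos p hp]
    exact (m ⟨p, hp⟩).2
  have hinv : ∀ p, extB m (extB m p) = p := by
    intro p
    by_cases hp : p < F.k
    · rw [hpos (extB m p) (hlt p hp)]
      have h3 : (⟨extB m p, hlt p hp⟩ : Fin F.k) = m ⟨p, hp⟩ := Fin.ext (hpos p hp)
      rw [h3, hm1]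
    · rw [hneg p hp, hneg p hp]
  have hd : ∀ p < F.k, d4 B p = extB m p := by
    intro p hp
    rw [hpos p hp]
    exact hB ⟨p, hp⟩
  have htest := ncE_sound (k := F.k) (U := 2 ^ F.k - 1) (B := B) (β := extB m) _ hinv hlt hd
    (by
      intro p hp
      refine ⟨fun _ => ?_, fun _ => hUtb p hp⟩
      rw [hpos p hp]
      intro h1
      exact hm2 ⟨p, hp⟩ (Fin.ext h1))
    (by
      intro a a' l l' haa hal hll ha ha'
      by_cases hl' : l' < F.k
      · have h1 : a' < F.k := by omega
        have h2 : a < F.k := by omega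
        have h3 : l < F.k := by omega
        apply D.nc (D.T i') ⟨a, h2⟩ ⟨a', h1⟩ ⟨l, h3⟩ ⟨l', hl'⟩ haa hal hll
        · rw [hbi]
          apply Fin.ext
          rw [← hpos]
          exact ha
        · rw [hbi]
          apply Fin.ext
          rw [← hpos]
          exact ha'
      · have h3 := hinv a'
        rw [ha', hneg l' hl'] at h3
        omega) hBlt F.k 0 [] ((used (2 ^ F.k - 1) F.k 0).card) 0 (Nat.zero_add _)
    ⟨Nat.zero_le _, List.Pairwise.nil, by intro q; simp, rfl, by intro q; simp⟩ h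
  have hw : wit F S G B = true := by
    have h1 : (not (and (sing F.k m1 B (2 ^ F.k - 1)) (sing F.k m2 B (2 ^ F.k - 1))) ||
      wit F S G B) = true := htest
    rw [hs1, hs2] at h1
    simpa using h1
  -- the witness
  have hw' : Tri'.all (fun s => not (and
    (and (not (Nat.beq s.T (maskOf G 0 (Nat.mul 3 F.n) 0)))
      (and (not (Nat.beq s.T (maskOf G 1 (Nat.mul 3 F.n) 0)))
        (not (Nat.beq s.T (maskOf G 2 (Nat.mul 3 F.n) 0)))))
    (and (allN (fun p => or (not (tb s.U p)) (tb s.U (d4 B p))) F.k)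
      (sing' F.k s.m (resB s.U B F.k 0) s.U)))) S = false := by
    have h1 : wit F S G B = not (Tri'.all (fun s => not (and
    (and (not (Nat.beq s.T (maskOf G 0 (Nat.mul 3 F.n) 0)))
      (and (not (Nat.beq s.T (maskOf G 1 (Nat.mul 3 F.n) 0)))
        (not (Nat.beq s.T (maskOf G 2 (Nat.mul 3 F.n) 0)))))
    (and (allN (fun p => or (not (tb s.U p)) (tb s.U (d4 B p))) F.k)
      (sing' F.k s.m (resB s.U B F.k 0) s.U)))) S) := rfl
    rw [h1] at hw
    simpa using hw
  obtain ⟨s, hs, hP⟩ := all_wit (okSy F) _ S hS hw'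
  have hP' : ((!(Nat.beq s.T (maskOf G 0 (3 * F.n) 0)) &&
      (!(Nat.beq s.T (maskOf G 1 (3 * F.n) 0)) && !(Nat.beq s.T (maskOf G 2 (3 * F.n) 0)))) &&
      (allN (fun p => (!(tb s.U p) || tb s.U (d4 B p))) F.k &&
        sing' F.k s.m (resB s.U B F.k 0) s.U)) = true := hP
  simp only [Bool.and_eq_true, allN_iff] at hP'
  obtain ⟨⟨hT0, hT1, hT2⟩, hcl, hsing⟩ := hP'
  obtain ⟨hUlt, hTlt⟩ := okSy_bounds F s hs
  have hcl' : ∀ p : Fin F.k, tb s.U p = true → tb s.U (m p) = true := by
    intro p hp
    have h1 := hcl p p.2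
    rw [hB p, hp] at h1
    simpa using h1
  -- the restricted pairing
  let b' : Fin F.k → Fin F.k := fun p => if tb s.U p = true then m p else p
  have hb't : ∀ p : Fin F.k, tb s.U p = true → b' p = m p := fun p hp => if_pos hp
  have hb'f : ∀ p : Fin F.k, ¬ tb s.U p = true → b' p = p := fun p hp => if_neg hp
  have hb'i : ∀ p, b' (b' p) = p := by
    intro p
    by_cases hp : tb s.U p = true
    · rw [hb't p hp, hb't (m p) (hcl' p hp), hm1]
    · rw [hb'f p hp, hb'f p hp]
  have hb'B : CodeB b' (resB s.U B F.k 0) := by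
    intro p
    rw [resB_d4 s.U B F.k (by omega) p p.2]
    by_cases hp : tb s.U p = true
    · rw [hp, cond_true, hb't p hp]
      exact hB p
    · rw [hb'f p hp]
      have h1 : tb s.U p = false := by simpa using hp
      rw [h1, cond_false]
  have hb'U : CodeU b' s.U := by
    refine ⟨hUlt, fun p => ?_⟩
    constructor
    · intro hp
      rw [hb't p hp]
      exact hm2 p
    · intro h1
      by_contra h2
      exact h1 (hb'f p h2)
  have hham := hamF_of_okSy F hF s hs b' hb'i _ hb'B hb'U hsing
  obtain ⟨O, hO⟩ := hm4 b' hb'i (by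
    intro p
    by_cases hp : tb s.U p = true
    · exact Or.inr (hb't p hp)
    · exact Or.inl (hb'f p hp))
  rw [← hO] at hham
  obtain ⟨a, -, ha⟩ := D.all O _ hham
  have hmask : s.T = maskOf G a (3 * F.n) 0 := by
    apply Nat.eq_of_testBit_eq
    intro x
    rw [maskOf_bit, Nat.zero_testBit, Bool.false_or]
    by_cases hx : x < 3 * F.n
    · have h1 := congrFun ha ⟨x, hx⟩
      have h2 : tb s.T x = decide (D.γ ⟨x, hx⟩ ≠ a) := h1
      rw [← tb_eq, h2]
      apply decide_eq_decide.2
      have h3 := hGc ⟨x, hx⟩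
      have h4 : d2 G x = (D.γ ⟨x, hx⟩ : ℕ) := h3
      rw [h4, Ne, Ne, Fin.ext_iff]
      exact ⟨fun h5 => ⟨hx, h5⟩, fun h5 => h5.2⟩
    · have h1 : s.T.testBit x = false := by
        apply Nat.testBit_lt_two_pow
        exact lt_of_lt_of_le hTlt (Nat.pow_le_pow_right (by norm_num) (by omega))
      rw [h1]
      symm
      rw [decide_eq_false_iff_not]
      exact fun h5 => hx h5.1
  have key : ∀ M : ℕ, (!(Nat.beq s.T M)) = true → s.T ≠ M := by
    intro M hM h1
    rw [h1, Nat.beq_refl] at hM
    exact absurd hM (by simp)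
  fin_cases a
  · exact key _ hT0 hmask
  · exact key _ hT1 hmask
  · exact key _ hT2 hmask

end Pool.Agent.Helper17.CT
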